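import Pool.Agent.N437.SQ.Stm

/-!
# Project SQ, leaf F8
-/

set_option autoImplicit false

namespace Pool.Agent.N28.SQ

open Pool.Agent.N437.SQ

theorem t_F8 (h5 : S_F5) (h6 : S_F6) (h7 : S_F7) : S_F8 := by
  classical
  intro C
  obtain ⟨C', hC1, hCC⟩ : ∃ C' : ℕ, 1 ≤ C' ∧ C ≤ C' := by
    refine ⟨max ⌈C⌉₊ 1, le_max_right _ _, (Nat.le_ceil C).trans ?_⟩
    exact_mod_cast le_max_left _ _
  obtain ⟨k, hk⟩ : ∃ k : ℕ, k = 8 * C' + 8 := ⟨_, rfl⟩
  refine ⟨k, by omega, fun F => ?_⟩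
  obtain ⟨L, hL1, hFL⟩ : ∃ L : ℕ, 1 ≤ L ∧ 2 * F ≤ L := by
    refine ⟨max ⌈2 * F⌉₊ 1, le_max_right _ _, (Nat.le_ceil (2 * F)).trans ?_⟩
    exact_mod_cast le_max_left _ _
  obtain ⟨q₀, hq₀⟩ := h5 C' hC1
  obtain ⟨q, hqq, hq4⟩ : ∃ q : ℕ, q₀ ≤ q ∧ 4 * C' * k + 4 ≤ q :=
    ⟨max q₀ (4 * C' * k + 4), le_max_left _ _, le_max_right _ _⟩
  obtain ⟨φ, hφ⟩ := hq₀ q L hqq hL1
  rw [← hk] at hφ
  obtain ⟨hV, hE⟩ := h7 q L φ (by omega)
  have hqpos : 0 < q ^ (3 ^ L) := pow_pos (by omega) _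
  have hne : Nonempty (Fin (q ^ (3 ^ L)) ⊕ Lay q L) := ⟨Sum.inl ⟨0, hqpos⟩⟩
  let e : (Fin (q ^ (3 ^ L)) ⊕ Lay q L) ≃ Fin (Fintype.card (Fin (q ^ (3 ^ L)) ⊕ Lay q L)) :=
    Fintype.equivFin _
  let I : (LG q L φ).comap e.symm ≃g LG q L φ := SimpleGraph.Iso.comap e.symm (LG q L φ)
  refine ⟨_, (LG q L φ).comap e.symm, Fintype.card_pos, ?_, ?_⟩
  · have h1 : ((LG q L φ).comap e.symm).edgeSet.ncard = (LG q L φ).edgeSet.ncard := by
      rw [← Nat.card_coe_set_eq, ← Nat.card_coe_set_eq]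
      exact Nat.card_congr I.mapEdgeSet
    rw [h1, hE]
    have h2 : (Fintype.card (Fin (q ^ (3 ^ L)) ⊕ Lay q L) : ℝ) ≤ 2 * ((q ^ (3 ^ L) : ℕ) : ℝ) := by
      exact_mod_cast hV
    have h3 : (0 : ℝ) ≤ (Fintype.card (Fin (q ^ (3 ^ L)) ⊕ Lay q L) : ℝ) := Nat.cast_nonneg _
    have h4 : (0 : ℝ) ≤ (L : ℝ) := Nat.cast_nonneg _
    calc F * (Fintype.card (Fin (q ^ (3 ^ L)) ⊕ Lay q L) : ℝ)
        ≤ (L / 2) * (Fintype.card (Fin (q ^ (3 ^ L)) ⊕ Lay q L) : ℝ) :=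
          mul_le_mul_of_nonneg_right (by linarith) h3
      _ ≤ (L / 2) * (2 * ((q ^ (3 ^ L) : ℕ) : ℝ)) := mul_le_mul_of_nonneg_left h2 (by positivity)
      _ = ((L * q ^ (3 ^ L) : ℕ) : ℝ) := by push_cast; ring
  · intro H hH hdeg
    let H' : (LG q L φ).Subgraph :=
      { verts := {x | e x ∈ H.verts}
        Adj := fun x y => H.Adj (e x) (e y)
        adj_sub := fun {x y} h => by
          have h1 := H.adj_sub h
          rw [SimpleGraph.comap_adj, e.symm_apply_apply, e.symm_apply_apply] at h1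
          exact h1
        edge_vert := fun {x y} h => H.edge_vert h
        symm := ⟨fun x y h => H.symm.symm _ _ h⟩ }
    refine h6 q L C' k φ hC1 (by omega) hq4 hφ H' ?_ fun x hx => ?_
    · obtain ⟨v, hv⟩ := hH
      refine ⟨e.symm v, ?_⟩
      change e (e.symm v) ∈ H.verts
      rw [e.apply_symm_apply]
      exact hv
    · have h1 : H.neighborSet (e x) = e '' H'.neighborSet x := by
        ext y
        constructor
        · intro hy
          refine ⟨e.symm y, ?_, e.apply_symm_apply y⟩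
          change H.Adj (e x) (e (e.symm y))
          rw [e.apply_symm_apply]
          exact hy
        · rintro ⟨z, hz, rfl⟩
          exact hz
      have h2 : (H.neighborSet (e x)).ncard = (H'.neighborSet x).ncard := by
        rw [h1]
        exact Set.ncard_image_of_injective _ e.injective
      obtain ⟨h3, h4⟩ := hdeg (e x) hx
      rw [h2] at h3 h4
      refine ⟨by exact_mod_cast h3, ?_⟩
      have h5 : ((H'.neighborSet x).ncard : ℝ) < ((C' * k : ℕ) : ℝ) := by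
        refine h4.trans_le ?_
        push_cast
        exact mul_le_mul_of_nonneg_right hCC (Nat.cast_nonneg _)
      exact_mod_cast h5

end Pool.Agent.N28.SQ
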